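import Mathlib
import Pool.Agent.Y248.FD.Stm
import Pool.Agent.Y737.FC.Gs
set_option autoImplicit false

/-! # Project FD: the case `1 < p < 2` on boxes (SB), after helper737's `t_gs` -/

namespace Pool.Agent.Y93.FD

open MeasureTheory Set Metric Complex Filter
open scoped ENNReal RealInnerProductSpace Topology FourierTransform
open Pool.Agent.H789R2.FR (E sg T)
open Pool.Agent.H438R2.RZ (Bump)
open Pool.Agent.Y248.BA (mu Kr Tp gh gh_cont mu_bdd mu_far mu_cont mu_int mu_supp conv_eq four_eq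
  four_bdd ball_vol int_of_loc)
open Pool.Agent.Y248.FB
open Pool.Agent.Y248.FC
open Pool.Agent.Y248.FD
open Pool.Agent.Y515.FB (mu_neg absorb ind_int)
open Pool.Agent.Y737.FC (st1b Fm_meas)

/-- multipliers controlled by the annular piece and supported in a set -/
structure Mq {n : ℕ} (ψ : ℝ → ℝ) (A : ℝ) (q : E n → ℂ) (Bq : ℝ) (Sh : Set (E n)) : Prop where
  cont : Continuous q
  even : ∀ ξ, q (-ξ) = q ξ
  pos : 0 < Bq
  bd : ∀ ξ, ‖q ξ‖ ≤ Bq * ‖mu ψ A 1 ξ‖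
  sh : ∀ ξ, q ξ ≠ 0 → ξ ∈ Sh
  shm : MeasurableSet Sh

section gen

variable {n : ℕ} {ψ : ℝ → ℝ} {A : ℝ} {q : E n → ℂ} {Bq : ℝ} {Sh : Set (E n)} {f : E n → ℂ}

theorem Mq.far (h : Mq ψ A q Bq Sh) (hψ : Bump ψ) (hA : 0 < A) (ξ : E n)
    (hξ : ξ ∉ closedBall (0 : E n) 2) : q ξ = 0 := by
  rw [mem_closedBall_zero_iff] at hξ
  push Not at hξ
  have h1 := h.bd ξ
  rw [mu_far hψ hA one_pos ξ (by linarith), norm_zero, mul_zero] at h1
  exact norm_le_zero_iff.1 h1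

theorem Mq.int (h : Mq ψ A q Bq Sh) (hψ : Bump ψ) (hA : 0 < A) : Integrable q :=
  h.cont.integrable_of_hasCompactSupport
    (HasCompactSupport.intro (isCompact_closedBall (0 : E n) 2) (h.far hψ hA))

theorem Mq.norm_bdd (h : Mq ψ A q Bq Sh) (hψ : Bump ψ) : ∃ M : ℝ, 0 < M ∧ ∀ ξ, ‖q ξ‖ ≤ M := by
  obtain ⟨M, hM, hMb⟩ := mu_bdd hψ
  have hB := h.pos
  refine ⟨Bq * M, by positivity, fun ξ => (h.bd ξ).trans ?_⟩
  exact mul_le_mul_of_nonneg_left (hMb n A 1 ξ) hB.le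

/-- the integrand -/
noncomputable def Gq (q : E n → ℂ) (f : E n → ℂ) (z : E n × E n) : ℂ :=
  cexp (((-2 * Real.pi * ⟪z.2, z.1⟫ : ℝ) : ℂ) * I) * (q z.2 * gh f z.2)

theorem Gq_meas (hq : Continuous q) (hf : Integrable f) : Measurable (Gq q f) := by
  unfold Gq
  have h1 : Continuous fun z : E n × E n => cexp (((-2 * Real.pi * ⟪z.2, z.1⟫ : ℝ) : ℂ) * I) := by
    fun_prop
  exact h1.measurable.mul ((hq.measurable.comp measurable_snd).mul
    ((gh_cont hf).measurable.comp measurable_snd))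

theorem Tq_eq (h : Mq ψ A q Bq Sh) (hψ : Bump ψ) (hA : 0 < A) (hf : Integrable f) (x : E n) :
    Tq q f x = ∫ ξ, Gq q f (x, ξ) := by
  unfold Tq
  rw [conv_eq (h.int hψ hA) hf, four_eq]
  rfl

theorem Tq_meas (h : Mq ψ A q Bq Sh) (hψ : Bump ψ) (hA : 0 < A) (hf : Integrable f) :
    Measurable (Tq q f) := by
  have e : Tq q f = fun x => ∫ ξ, Gq q f (x, ξ) := by
    funext x; exact Tq_eq h hψ hA hf x
  rw [e]
  exact ((Gq_meas h.cont hf).stronglyMeasurable.integral_prod_right'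
    (ν := (volume : Measure (E n)))).measurable

theorem Gq_bdd (h : Mq ψ A q Bq Sh) (hψ : Bump ψ) (hA : 0 < A) : ∃ M : ℝ, 0 ≤ M ∧
    ∀ z : E n × E n, ‖Gq q f z‖ ≤ (closedBall (0 : E n) 2).indicator (fun _ => M) z.2 := by
  obtain ⟨M, hM, hMb⟩ := h.norm_bdd hψ
  have h0 : 0 ≤ ∫ x, ‖f x‖ := integral_nonneg fun x => norm_nonneg _
  refine ⟨M * ∫ x, ‖f x‖, by positivity, fun z => ?_⟩
  unfold Gq
  rw [norm_mul, norm_mul, Complex.norm_exp_ofReal_mul_I, one_mul]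
  by_cases hz : z.2 ∈ closedBall (0 : E n) 2
  · rw [indicator_of_mem hz]
    have h1 : ‖gh f z.2‖ ≤ ∫ x, ‖f x‖ := four_bdd f _
    exact mul_le_mul (hMb _) h1 (norm_nonneg _) hM.le
  · rw [indicator_of_notMem hz, h.far hψ hA _ hz]
    simp

theorem Tq_bdd (h : Mq ψ A q Bq Sh) (hψ : Bump ψ) (hA : 0 < A) (hf : Integrable f) :
    ∃ M : ℝ, 0 ≤ M ∧ ∀ x, ‖Tq q f x‖ ≤ M := by
  obtain ⟨M, hM, hb⟩ := Gq_bdd (f := f) h hψ hA
  refine ⟨∫ ξ : E n, (closedBall (0 : E n) 2).indicator (fun _ => M) ξ,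
    integral_nonneg fun ξ => indicator_nonneg (fun _ _ => hM) _, fun x => ?_⟩
  rw [Tq_eq h hψ hA hf]
  exact norm_integral_le_of_norm_le (ind_int M) (Eventually.of_forall fun ξ => hb (x, ξ))

/-- the pairing -/
theorem pairq (h : Mq ψ A q Bq Sh) (hψ : Bump ψ) (hA : 0 < A) (ν : Measure (E n))
    [IsFiniteMeasure ν] {g : E n → ℂ} (hf : Integrable f) (hg : Measurable g) {M : ℝ}
    (hgb : ∀ x, ‖g x‖ ≤ M) :
    ∫ x, Tq q f x * g x ∂ν = ∫ ξ, (q ξ * gh f ξ) * Fm g ν (-ξ) := by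
  obtain ⟨K, hK, hKb⟩ := Gq_bdd (f := f) h hψ hA
  have hprod : Integrable (fun z : E n × E n => Gq q f z * g z.1)
      (ν.prod (volume : Measure (E n))) := by
    refine ((ind_int (n := n) (K * M)).comp_snd ν).mono' ?_ (Eventually.of_forall fun z => ?_)
    · exact ((Gq_meas h.cont hf).mul (hg.comp measurable_fst)).aestronglyMeasurable
    · rw [norm_mul]
      have h1 := hKb z
      by_cases hz : z.2 ∈ closedBall (0 : E n) 2
      · rw [indicator_of_mem hz] at h1 ⊢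
        exact mul_le_mul h1 (hgb _) (norm_nonneg _) hK
      · rw [indicator_of_notMem hz] at h1 ⊢
        have h2 : ‖Gq q f z‖ = 0 := le_antisymm h1 (norm_nonneg _)
        rw [h2, zero_mul]
  have e1 : ∀ x, Tq q f x * g x = ∫ ξ, Gq q f (x, ξ) * g x := by
    intro x
    rw [Tq_eq h hψ hA hf, integral_mul_const]
  simp only [e1]
  rw [integral_integral_swap hprod]
  refine integral_congr_ae (Eventually.of_forall fun ξ => ?_)
  simp only [Fm]
  rw [← integral_const_mul]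
  refine integral_congr_ae (Eventually.of_forall fun x => ?_)
  simp only [Gq]
  rw [inner_neg_right, real_inner_comm x ξ]
  have : ((-2 * Real.pi * ⟪x, ξ⟫ : ℝ) : ℂ) = ((2 * Real.pi * -⟪x, ξ⟫ : ℝ) : ℂ) := by
    push_cast; ring
  rw [this]
  ring

/-- the pairing, with the gain -/
theorem pair_gainq (h : Mq ψ A q Bq Sh) (hψ : Bump ψ) (hA : 0 < A)
    (ν : Measure (E n)) [IsFiniteMeasure ν] {g : E n → ℂ} (hf : Integrable f)
    (hg : Measurable g) {M : ℝ} (hgb : ∀ x, ‖g x‖ ≤ M) :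
    ‖∫ x, Tq q f x * g x ∂ν‖ₑ ≤
      (∫⁻ ξ, ‖q ξ * gh f ξ‖ₑ ^ (2 : ℝ)) ^ (1 / 2 : ℝ) *
      (∫⁻ ξ in Sh, ‖Fm g ν ξ‖ₑ ^ (2 : ℝ)) ^ (1 / 2 : ℝ) := by
  rw [pairq h hψ hA ν hf hg hgb]
  refine (enorm_integral_le_lintegral_enorm _).trans ?_
  have hFm := Fm_meas ν hg
  have h1 := ENNReal.lintegral_mul_le_Lp_mul_Lq (volume : Measure (E n))
    (p := 2) (q := 2) (by constructor <;> norm_num)
    (f := fun ξ => ‖q ξ * gh f ξ‖ₑ)
    (g := fun ξ => Sh.indicator (fun ξ => ‖Fm g ν ξ‖ₑ) (-ξ))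
    (h.cont.mul (gh_cont hf)).measurable.enorm.aemeasurable
    ((hFm.enorm.indicator h.shm).comp measurable_neg).aemeasurable
  have h2 : ∫⁻ ξ, Sh.indicator (fun ξ => ‖Fm g ν ξ‖ₑ) (-ξ) ^ (2 : ℝ) =
      ∫⁻ ξ in Sh, ‖Fm g ν ξ‖ₑ ^ (2 : ℝ) := by
    rw [lintegral_neg_eq_self (fun ξ => Sh.indicator (fun ξ => ‖Fm g ν ξ‖ₑ) ξ ^
      (2 : ℝ)), ← lintegral_indicator h.shm]
    refine lintegral_congr fun ξ => ?_
    by_cases hξ : ξ ∈ Sh
    · rw [indicator_of_mem hξ, indicator_of_mem hξ]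
    · rw [indicator_of_notMem hξ, indicator_of_notMem hξ, ENNReal.zero_rpow_of_pos (by norm_num)]
  rw [h2] at h1
  refine le_trans (lintegral_mono fun ξ => ?_) h1
  change ‖(q ξ * gh f ξ) * Fm g ν (-ξ)‖ₑ ≤ ‖q ξ * gh f ξ‖ₑ *
    Sh.indicator (fun ξ => ‖Fm g ν ξ‖ₑ) (-ξ)
  by_cases hξ : q ξ = 0
  · rw [hξ]; simp
  · rw [indicator_of_mem (h.sh (-ξ) (by rw [h.even]; exact hξ)), ← enorm_mul]

theorem st2q (h : Mq ψ A q Bq Sh) (hψ : Bump ψ) (hA : 0 < A) {μ : Measure (E n)}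
    {B : Set (E n)} (hBm : MeasurableSet B) (hBf : μ B < ∞) {R : ℝ} (hBR : B ⊆ closedBall 0 R)
    {c : ℝ≥0∞} (hc : ∀ g : E n → ℂ, BB g →
      ∫⁻ ξ in Sh, ‖Fm g μ ξ‖ₑ ^ (2 : ℝ) ≤ c * ∫⁻ x, ‖g x‖ₑ ^ (2 : ℝ) ∂μ) (hf : Integrable f) :
    ∫⁻ x in B, ‖Tq q f x‖ₑ ^ (2 : ℝ) ∂μ ≤ (∫⁻ ξ, ‖q ξ * gh f ξ‖ₑ ^ (2 : ℝ)) * c := by
  have : IsFiniteMeasure (μ.restrict B) := ⟨by rw [Measure.restrict_apply_univ]; exact hBf⟩
  obtain ⟨M, hM, hMb⟩ := Tq_bdd h hψ hA hf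
  have hFm := Tq_meas h hψ hA hf
  set F := Tq q f with hF
  set g : E n → ℂ := B.indicator fun x => (starRingEnd ℂ) (F x) with hg
  have hgm : Measurable g := (Complex.continuous_conj.measurable.comp hFm).indicator hBm
  have hgn : ∀ x, ‖g x‖ = B.indicator (fun x => ‖F x‖) x := by
    intro x
    rw [hg]
    by_cases hx : x ∈ B
    · rw [indicator_of_mem hx, indicator_of_mem hx, RCLike.norm_conj]
    · rw [indicator_of_notMem hx, indicator_of_notMem hx, norm_zero]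
  have hgb : ∀ x, ‖g x‖ ≤ M := by
    intro x
    rw [hgn]
    by_cases hx : x ∈ B
    · rw [indicator_of_mem hx]; exact hMb x
    · rw [indicator_of_notMem hx]; exact hM
  have hg0 : ∀ x, x ∉ B → g x = 0 := fun x hx => indicator_of_notMem hx _
  have hBB : BB g := ⟨hgm, ⟨M, hgb⟩, R, fun x hx => hg0 x fun h => hx (hBR h)⟩
  have h1 := hc g hBB
  have h2 : Fm g (μ.restrict B) = Fm g μ := by
    funext ξ
    unfold Fm
    exact setIntegral_eq_integral_of_forall_compl_eq_zero fun x hx => by rw [hg0 x hx]; ring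
  have h3 := pair_gainq h hψ hA (μ.restrict B) hf hgm hgb
  rw [h2, ← hF] at h3
  set J : ℝ≥0∞ := ∫⁻ x in B, ‖F x‖ₑ ^ (2 : ℝ) ∂μ with hJ
  have hen : ∀ x, ENNReal.ofReal (‖F x‖ ^ 2) = ‖F x‖ₑ ^ (2 : ℝ) := by
    intro x
    rw [← ofReal_norm, ENNReal.ofReal_rpow_of_nonneg (norm_nonneg _) (by norm_num)]
    congr 1
    exact_mod_cast (Real.rpow_natCast _ 2).symm
  have hFi : Integrable (fun x => ‖F x‖ ^ 2) (μ.restrict B) := by
    refine Integrable.of_bound (C := M ^ 2) (hFm.norm.pow_const _).aestronglyMeasurable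
      (Eventually.of_forall fun x => ?_)
    rw [Real.norm_of_nonneg (by positivity)]
    exact pow_le_pow_left₀ (norm_nonneg _) (hMb x) 2
  have hJe : ENNReal.ofReal (∫ x in B, ‖F x‖ ^ 2 ∂μ) = J := by
    rw [ofReal_integral_eq_lintegral_ofReal hFi (Eventually.of_forall fun x => by positivity)]
    exact lintegral_congr fun x => hen x
  have hJf : J ≠ ∞ := by rw [← hJe]; exact ENNReal.ofReal_ne_top
  have h4 : ‖∫ x, F x * g x ∂(μ.restrict B)‖ₑ = J := by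
    have e1 : ∫ x, F x * g x ∂(μ.restrict B) = ((∫ x in B, ‖F x‖ ^ 2 ∂μ : ℝ) : ℂ) := by
      rw [← integral_complex_ofReal]
      refine setIntegral_congr_fun hBm fun x hx => ?_
      simp only [hg]
      rw [indicator_of_mem hx, Complex.mul_conj, Complex.normSq_eq_norm_sq]
    rw [e1, ← hJe, ← ofReal_norm, Complex.norm_real, Real.norm_of_nonneg
      (integral_nonneg fun x => by positivity)]
  have h5 : ∫⁻ x, ‖g x‖ₑ ^ (2 : ℝ) ∂μ = J := by
    rw [hJ, ← lintegral_indicator hBm]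
    refine lintegral_congr fun x => ?_
    rw [← ofReal_norm, hgn]
    by_cases hx : x ∈ B
    · rw [indicator_of_mem hx, indicator_of_mem hx, ofReal_norm]
    · rw [indicator_of_notMem hx, indicator_of_notMem hx, ENNReal.ofReal_zero,
        ENNReal.zero_rpow_of_pos (by norm_num)]
  rw [h4] at h3
  rw [h5] at h1
  set N : ℝ≥0∞ := ∫⁻ ξ, ‖q ξ * gh f ξ‖ₑ ^ (2 : ℝ) with hN
  have h6 : J ≤ (N ^ (1 / 2 : ℝ) * c ^ (1 / 2 : ℝ)) * J ^ (((2 : ℝ) - 1) / 2) := by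
    refine h3.trans ?_
    rw [mul_assoc]
    gcongr
    refine (ENNReal.rpow_le_rpow h1 (by norm_num)).trans (le_of_eq ?_)
    rw [ENNReal.mul_rpow_of_nonneg _ _ (by norm_num)]
    norm_num
  refine (absorb hJf (by norm_num) h6).trans (le_of_eq ?_)
  rw [ENNReal.mul_rpow_of_nonneg _ _ (by norm_num), ← ENNReal.rpow_mul, ← ENNReal.rpow_mul]
  norm_num

/-- the energy of the multiplier is controlled by the energy of the annular piece -/
theorem en_mu (h : Mq ψ A q Bq Sh) (f : E n → ℂ) :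
    ∫⁻ ξ, ‖q ξ * gh f ξ‖ₑ ^ (2 : ℝ) ≤
      ENNReal.ofReal (Bq ^ 2) * ∫⁻ ξ, ‖mu ψ A 1 ξ * gh f ξ‖ₑ ^ (2 : ℝ) := by
  have hB := h.pos
  rw [← lintegral_const_mul' _ _ ENNReal.ofReal_ne_top]
  refine lintegral_mono fun ξ => ?_
  rw [enorm_mul, enorm_mul, ENNReal.mul_rpow_of_nonneg _ _ (by norm_num),
    ENNReal.mul_rpow_of_nonneg _ _ (by norm_num), ← mul_assoc]
  gcongr
  rw [← ofReal_norm, ← ofReal_norm, ENNReal.ofReal_rpow_of_nonneg (norm_nonneg _) (by norm_num),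
    ENNReal.ofReal_rpow_of_nonneg (norm_nonneg _) (by norm_num),
    ← ENNReal.ofReal_mul (by positivity)]
  refine ENNReal.ofReal_le_ofReal ?_
  have e : ∀ x : ℝ, x ^ (2 : ℝ) = x ^ 2 := fun x => by exact_mod_cast Real.rpow_natCast x 2
  rw [e, e, ← mul_pow]
  exact pow_le_pow_left₀ (norm_nonneg _) (h.bd ξ) 2

end gen

/-- the abstract estimate -/
theorem core (n : ℕ) (hGE : S_GE n) {ψ : ℝ → ℝ} (hψ : Bump ψ) {p ε : ℝ} (hp1 : 1 < p)
    (hp2 : p < 2) (hε : 0 < ε) : ∃ C : ℝ, 0 < C ∧ ∀ A : ℝ, 4 ≤ A →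
      ∀ (q : E n → ℂ) (Bq : ℝ) (Sh : Set (E n)), Mq ψ A q Bq Sh → ∀ (μ : Measure (E n))
      (B : Set (E n)) (R W c : ℝ), MeasurableSet B → B ⊆ closedBall 0 R → 0 < W → 0 < c →
      μ B ≤ ENNReal.ofReal W →
      (∀ g : E n → ℂ, BB g →
        ∫⁻ ξ in Sh, ‖Fm g μ ξ‖ₑ ^ (2 : ℝ) ≤ ENNReal.ofReal c * ∫⁻ x, ‖g x‖ₑ ^ (2 : ℝ) ∂μ) →
      ∀ (u : E n) (r : ℝ) (f : E n → ℂ), Measurable f → (∀ x, x ∉ closedBall u r → f x = 0) →
      ∫⁻ x, ‖f x‖ₑ ^ p ≠ ∞ →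
      ∫⁻ x in B, ‖Tq q f x‖ₑ ^ p ∂μ ≤ ENNReal.ofReal (W ^ (1 - p / 2) *
        ((Bq ^ 2 * (C * A ^ (-th n 0 (p / (p - 1)) + ε))) * c) ^ (p / 2)) *
          ∫⁻ x, ‖f x‖ₑ ^ p := by
  obtain ⟨C, hC, hE⟩ := st1b n hGE hψ hp1 hp2 hε
  refine ⟨C, hC, fun A hA q Bq Sh hM μ B R W c hBm hBR hW hc hμB hgain u r f hf hs hfp => ?_⟩
  have hA0 : 0 < A := by linarith
  have hp0 : 0 < p := by linarith
  have hBq := hM.pos
  have hfi := int_of_loc hf hs p hp1.le hfp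
  have hN := hE A hA u r f hf hs hfi
  have h2 := st2q hM hψ hA0 hBm (hμB.trans_lt ENNReal.ofReal_lt_top) hBR hgain hfi
  have hFm := Tq_meas hM hψ hA0 hfi
  set F := Tq q f with hF
  have h1 := ENNReal.lintegral_mul_norm_pow_le (μ := μ.restrict B)
    (f := fun _ => (1 : ℝ≥0∞)) (g := fun x => ‖F x‖ₑ ^ (2 : ℝ))
    aemeasurable_const (hFm.enorm.pow_const _).aemeasurable
    (p := 1 - p / 2) (q := p / 2) (by linarith) (by positivity) (by ring)
  have e1 : ∀ x, (1 : ℝ≥0∞) ^ (1 - p / 2) * (‖F x‖ₑ ^ (2 : ℝ)) ^ (p / 2) = ‖F x‖ₑ ^ p := by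
    intro x
    rw [ENNReal.one_rpow, one_mul, ← ENNReal.rpow_mul]
    congr 1; ring
  simp only [e1] at h1
  rw [lintegral_one, Measure.restrict_apply_univ] at h1
  refine h1.trans ?_
  have h3 : ∫⁻ x in B, ‖F x‖ₑ ^ (2 : ℝ) ∂μ ≤
      ENNReal.ofReal ((Bq ^ 2 * (C * A ^ (-th n 0 (p / (p - 1)) + ε))) * c) *
        (∫⁻ x, ‖f x‖ₑ ^ p) ^ (2 / p) := by
    refine h2.trans ((mul_le_mul' ((en_mu hM f).trans (mul_le_mul' le_rfl hN)) le_rfl).trans
      (le_of_eq ?_))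
    rw [ENNReal.ofReal_mul (p := Bq ^ 2 * (C * A ^ (-th n 0 (p / (p - 1)) + ε))) (by positivity),
      ENNReal.ofReal_mul (p := Bq ^ 2) (by positivity)]
    ring
  calc μ B ^ (1 - p / 2) * (∫⁻ x in B, ‖F x‖ₑ ^ (2 : ℝ) ∂μ) ^ (p / 2)
      ≤ ENNReal.ofReal W ^ (1 - p / 2) *
        (ENNReal.ofReal ((Bq ^ 2 * (C * A ^ (-th n 0 (p / (p - 1)) + ε))) * c) *
        (∫⁻ x, ‖f x‖ₑ ^ p) ^ (2 / p)) ^ (p / 2) := by
        refine mul_le_mul' (ENNReal.rpow_le_rpow hμB (by linarith))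
          (ENNReal.rpow_le_rpow h3 (by positivity))
    _ = _ := by
        rw [ENNReal.mul_rpow_of_nonneg _ _ (by positivity), ← ENNReal.rpow_mul,
          show 2 / p * (p / 2) = 1 by field_simp, ENNReal.rpow_one,
          ENNReal.ofReal_rpow_of_nonneg (by positivity) (by linarith),
          ENNReal.ofReal_rpow_of_nonneg (by positivity) (by positivity), ← mul_assoc,
          ← ENNReal.ofReal_mul (by positivity)]

/-! ### boxes -/

section box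

variable {m : ℕ}

theorem hd_cont : Continuous (fun x : E (m + 1) => hd m x) := by
  unfold hd
  exact continuous_fst.comp (EuclideanSpace.finAddEquivProd (𝕜 := ℝ) (n := m) (m := 1)).continuous

theorem pr_cont : Continuous (fun x : E (m + 1) => pr m x) := by
  unfold pr
  exact continuous_snd.comp (EuclideanSpace.finAddEquivProd (𝕜 := ℝ) (n := m) (m := 1)).continuous

theorem pr_neg (x : E (m + 1)) : pr m (-x) = - pr m x := by
  unfold pr
  rw [map_neg]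
  rfl

theorem box_eq (l : ℝ) (u : E (m + 1)) (ρ : ℝ) :
    (EuclideanSpace.finAddEquivProd (𝕜 := ℝ) (n := m) (m := 1)).symm ⁻¹' (Box m l u ρ) =
      closedBall (hd m u) ρ ×ˢ closedBall (pr m u) (l * ρ) := by
  ext ⟨a, b⟩
  rw [mem_preimage, mem_prod, mem_closedBall, mem_closedBall, dist_eq_norm, dist_eq_norm]
  have h1 : hd m ((EuclideanSpace.finAddEquivProd (𝕜 := ℝ) (n := m) (m := 1)).symm (a, b)) = a := by
    unfold hd
    rw [ContinuousLinearEquiv.apply_symm_apply]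
  have h2 : pr m ((EuclideanSpace.finAddEquivProd (𝕜 := ℝ) (n := m) (m := 1)).symm (a, b)) = b := by
    unfold pr
    rw [ContinuousLinearEquiv.apply_symm_apply]
  change (‖hd m _ - hd m u‖ ≤ ρ ∧ ‖pr m _ - pr m u‖ ≤ l * ρ) ↔ _
  rw [h1, h2]

theorem box_comp (l : ℝ) (u : E (m + 1)) (ρ : ℝ) : IsCompact (Box m l u ρ) := by
  have h := ((isCompact_closedBall (hd m u) ρ).prod (isCompact_closedBall (pr m u) (l * ρ))).image
    (EuclideanSpace.finAddEquivProd (𝕜 := ℝ) (n := m) (m := 1)).symm.continuous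
  rw [← box_eq] at h
  rwa [image_preimage_eq _
    (EuclideanSpace.finAddEquivProd (𝕜 := ℝ) (n := m) (m := 1)).symm.surjective] at h

theorem ld_fin {β K₀ : ℝ} {ν : Measure (E 1)} (h : LD β K₀ ν) (t : E 1) (r : ℝ) :
    ν (closedBall t r) < ∞ :=
  (measure_mono (closedBall_subset_closedBall (le_max_left r 1))).trans_lt
    ((h t (max r 1) (le_max_right _ _)).trans_lt ENNReal.ofReal_lt_top)

theorem box_cyl {V : ℝ} (hV : 0 < V) (hVb : ∀ (u : E m) (r : ℝ), 0 ≤ r →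
    (volume : Measure (E m)) (closedBall u r) = ENNReal.ofReal (V * r ^ m)) {β K₀ : ℝ}
    (hK : 0 ≤ K₀) {ν : Measure (E 1)} (hν : LD β K₀ ν) {l ρ : ℝ} (hρ : 0 < ρ)
    (hlρ : 1 ≤ l * ρ) (u : E (m + 1)) :
    cyl m ν (Box m l u ρ) ≤
      ENNReal.ofReal ((V * (K₀ + 1)) * (ρ ^ m * (l * ρ) ^ β)) := by
  have : IsLocallyFiniteMeasure ν :=
    ⟨fun t => ⟨closedBall t 1, closedBall_mem_nhds t one_pos, ld_fin hν t 1⟩⟩
  have : SigmaFinite ν := inferInstance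
  unfold cyl
  rw [Measure.map_apply
    (EuclideanSpace.finAddEquivProd (𝕜 := ℝ) (n := m) (m := 1)).symm.continuous.measurable
    (box_comp l u ρ).measurableSet, box_eq, Measure.prod_prod, hVb _ _ hρ.le]
  refine (mul_le_mul' le_rfl (hν _ _ hlρ)).trans ?_
  rw [← ENNReal.ofReal_mul (by positivity)]
  refine ENNReal.ofReal_le_ofReal ?_
  have h1 : 0 ≤ (l * ρ) ^ β := by positivity
  calc V * ρ ^ m * (K₀ * (l * ρ) ^ β) ≤ V * ρ ^ m * ((K₀ + 1) * (l * ρ) ^ β) := by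
        gcongr; linarith
    _ = _ := by ring

end box

/-! ### the two families of pieces -/

theorem cut_bdd {θ : ℝ → ℝ} (hθ : Cut θ) : ∃ M : ℝ, 0 < M ∧ ∀ s, 0 ≤ s → |θ s| ≤ M := by
  obtain ⟨M, hM⟩ := (isCompact_Icc (a := (0 : ℝ)) (b := 2)).exists_bound_of_continuousOn
    hθ.1.continuous.continuousOn
  refine ⟨max M 1, by positivity, fun s hs => ?_⟩
  by_cases h : s ≤ 2
  · exact (hM s ⟨hs, h⟩).trans (le_max_left _ _)
  · rw [hθ.2 s (by linarith), abs_zero]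
    positivity

theorem shell {n : ℕ} {ψ : ℝ → ℝ} (hψ : Bump ψ) {A : ℝ} (hA : 4 ≤ A) (ξ : E n)
    (h : mu ψ A 1 ξ ≠ 0) : |‖ξ‖ ^ 2 - 1| ≤ 1 / (A / 2) := by
  have hA0 : 0 < A := by linarith
  obtain ⟨h1, h2⟩ := mu_supp hψ hA0 one_pos ξ h
  have h3 : 0 < 1 / (2 * A) := by positivity
  have h4 : 0 < 2 / A := by positivity
  rw [abs_le, show 1 / (A / 2) = 2 / A by field_simp]
  constructor <;> linarith

/-- the set for the pieces near the equator -/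
def Sl (m : ℕ) (A l : ℝ) : Set (E (m + 1)) :=
  {ξ : E (m + 1) | |‖ξ‖ ^ 2 - 1| ≤ 1 / (A / 2) ∧ ‖pr m ξ‖ ≤ 2 * l ∧
        (l / 2 ≤ ‖pr m ξ‖ ∨ A / 2 * l ^ 2 ≤ 16)}

/-- the set for the piece away from the equator -/
def Sg (m : ℕ) (A : ℝ) : Set (E (m + 1)) :=
  {ξ : E (m + 1) | |‖ξ‖ ^ 2 - 1| ≤ 1 / (A / 2) ∧ 1 / 16 ≤ ‖pr m ξ‖}

theorem Sl_meas (m : ℕ) (A l : ℝ) : MeasurableSet (Sl m A l) := by
  have h1 : MeasurableSet {ξ : E (m + 1) | |‖ξ‖ ^ 2 - 1| ≤ 1 / (A / 2)} :=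
    measurableSet_le (by fun_prop) measurable_const
  have h2 : MeasurableSet {ξ : E (m + 1) | ‖pr m ξ‖ ≤ 2 * l} :=
    measurableSet_le pr_cont.measurable.norm measurable_const
  have h3 : MeasurableSet {ξ : E (m + 1) | l / 2 ≤ ‖pr m ξ‖} :=
    measurableSet_le measurable_const pr_cont.measurable.norm
  exact h1.inter (h2.inter (h3.union (MeasurableSet.const _)))

theorem Sg_meas (m : ℕ) (A : ℝ) : MeasurableSet (Sg m A) := by
  have h1 : MeasurableSet {ξ : E (m + 1) | |‖ξ‖ ^ 2 - 1| ≤ 1 / (A / 2)} :=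
    measurableSet_le (by fun_prop) measurable_const
  have h3 : MeasurableSet {ξ : E (m + 1) | 1 / 16 ≤ ‖pr m ξ‖} :=
    measurableSet_le measurable_const pr_cont.measurable.norm
  exact h1.inter h3

theorem Mq_pm (m : ℕ) {ψ θ : ℝ → ℝ} (hψ : Bump ψ) (hθ : Cut θ) {M : ℝ} (hM : 0 < M)
    (hMb : ∀ s, 0 ≤ s → |θ s| ≤ M) {A l : ℝ} (hAl : Adm θ A l) :
    Mq ψ A (pm m ψ θ A l) (M + 1) (Sl m A l) := by
  obtain ⟨hA, hl, hl8, hAl2, hcase⟩ := hAl
  have hl2 : 0 < l ^ 2 := by positivity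
  refine ⟨?_, fun ξ => ?_, by positivity, fun ξ => ?_, fun ξ hξ => ?_, Sl_meas m A l⟩
  · unfold pm
    refine (mu_cont hψ A 1).mul (Complex.continuous_ofReal.comp
      (hθ.1.continuous.comp ((pr_cont.norm.pow 2).div_const _)))
  · unfold pm
    rw [mu_neg, pr_neg, norm_neg]
  · unfold pm
    rw [norm_mul, Complex.norm_real, mul_comm]
    refine mul_le_mul_of_nonneg_right ?_ (norm_nonneg _)
    have := hMb (‖pr m ξ‖ ^ 2 / l ^ 2) (by positivity)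
    rw [Real.norm_eq_abs]
    linarith
  · unfold pm at hξ
    have h1 : mu ψ A 1 ξ ≠ 0 := left_ne_zero_of_mul hξ
    have h2 : θ (‖pr m ξ‖ ^ 2 / l ^ 2) ≠ 0 := by
      intro h
      apply right_ne_zero_of_mul hξ
      rw [h, Complex.ofReal_zero]
    refine ⟨shell hψ hA ξ h1, ?_, ?_⟩
    · have h3 : ‖pr m ξ‖ ^ 2 / l ^ 2 < 2 := by
        by_contra h
        rw [not_lt] at h
        exact h2 (hθ.2 _ h)
      rw [div_lt_iff₀ hl2] at h3
      have h4 : ‖pr m ξ‖ ^ 2 ≤ (2 * l) ^ 2 := by nlinarith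
      exact (pow_le_pow_iff_left₀ (norm_nonneg _) (by positivity) two_ne_zero).1 h4
    · rcases hcase with hcase | hcase
      · left
        have h3 : 1 / 4 ≤ ‖pr m ξ‖ ^ 2 / l ^ 2 := by
          by_contra h
          rw [not_le] at h
          exact h2 (hcase _ h)
        rw [le_div_iff₀ hl2] at h3
        have h4 : (l / 2) ^ 2 ≤ ‖pr m ξ‖ ^ 2 := by nlinarith
        exact (pow_le_pow_iff_left₀ (by positivity) (norm_nonneg _) two_ne_zero).1 h4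
      · right
        have : 0 ≤ A * l ^ 2 := by positivity
        linarith

theorem Mq_hi (m : ℕ) {ψ θ : ℝ → ℝ} (hψ : Bump ψ) (hθ : Cut θ) (hθ1 : ∀ s, s ≤ 1 → θ s = 1)
    {M : ℝ} (hM : 0 < M) (hMb : ∀ s, 0 ≤ s → |θ s| ≤ M) {A : ℝ} (hA : 4 ≤ A) :
    Mq ψ A (hi m ψ θ A) (M + 1) (Sg m A) := by
  refine ⟨?_, fun ξ => ?_, by positivity, fun ξ => ?_, fun ξ hξ => ?_, Sg_meas m A⟩
  · unfold hi
    refine (mu_cont hψ A 1).mul (Complex.continuous_ofReal.comp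
      (continuous_const.sub (hθ.1.continuous.comp (continuous_const.mul (pr_cont.norm.pow 2)))))
  · unfold hi
    rw [mu_neg, pr_neg, norm_neg]
  · unfold hi
    rw [norm_mul, Complex.norm_real, mul_comm]
    refine mul_le_mul_of_nonneg_right ?_ (norm_nonneg _)
    have := hMb (64 * ‖pr m ξ‖ ^ 2) (by positivity)
    rw [Real.norm_eq_abs, abs_le]
    rw [abs_le] at this
    constructor <;> linarith [this.1, this.2]
  · unfold hi at hξ
    have h1 : mu ψ A 1 ξ ≠ 0 := left_ne_zero_of_mul hξ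
    have h2 : θ (64 * ‖pr m ξ‖ ^ 2) ≠ 1 := by
      intro h
      apply right_ne_zero_of_mul hξ
      rw [h, sub_self, Complex.ofReal_zero]
    refine ⟨shell hψ hA ξ h1, ?_⟩
    have h3 : 1 < 64 * ‖pr m ξ‖ ^ 2 := by
      by_contra h
      rw [not_lt] at h
      exact h2 (hθ1 _ h)
    have h4 : (1 / 16 : ℝ) ^ 2 ≤ ‖pr m ξ‖ ^ 2 := by nlinarith
    exact (pow_le_pow_iff_left₀ (by norm_num) (norm_nonneg _) two_ne_zero).1 h4

/-- rearrangement of the constants -/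
theorem cst {a b X Y u w p : ℝ} (ha : 0 < a) (hb : 0 < b) (hX : 0 ≤ X) (hY : 0 ≤ Y) (hu : 0 ≤ u)
    (hw : 0 ≤ w) :
    (a * X) ^ (1 - p / 2) * (b * (u * w)) ^ (p / 2) =
      a ^ (1 - p / 2) * b ^ (p / 2) * (u * w) ^ (p / 2) * X ^ (1 - p / 2) := by
  rw [Real.mul_rpow ha.le hX, Real.mul_rpow hb.le (by positivity)]
  ring

theorem t_sb (m : ℕ) (_hm : 2 ≤ m) : S_GE (m + 1) → S_GA m → S_SB m := by
  intro hGE hGA ψ θ hψ hθ β K₀ p ε hβ0 hβ1 hK hp1 hp2 hε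
  obtain ⟨C, hC, hcore⟩ := core (m + 1) hGE hψ hp1 hp2 hε
  obtain ⟨C1, hC1, hga⟩ := hGA
  obtain ⟨V, hV, hVb⟩ := ball_vol m
  obtain ⟨M, hM, hMb⟩ := cut_bdd hθ
  have hK1 : 0 < K₀ + 1 := by linarith
  refine ⟨(V * (K₀ + 1)) ^ (1 - p / 2) * ((M + 1) ^ 2 * C * (2 * (C1 * (K₀ + 1)))) ^ (p / 2),
    by positivity, fun ν hν => ⟨?_, ?_⟩⟩
  · intro A l hAl u ρ hlρ f hf hs hfp
    have hMq := Mq_pm m hψ hθ hM hMb hAl
    obtain ⟨hA, hl, hl8, hAl2, hcase⟩ := hAl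
    have hA0 : 0 < A := by linarith
    have hρ : 0 < ρ := by
      by_contra h
      rw [not_lt] at h
      nlinarith
    obtain ⟨R, hR⟩ := (box_comp l u ρ).isBounded.subset_closedBall (0 : E (m + 1))
    obtain ⟨r, hr⟩ := (box_comp l u (2 * ρ)).isBounded.subset_closedBall u
    have hW := box_cyl hV hVb hK hν hρ hlρ u
    have hgain : ∀ g : E (m + 1) → ℂ, BB g →
        ∫⁻ ξ in Sl m A l, ‖Fm g (cyl m ν) ξ‖ₑ ^ (2 : ℝ) ≤
          ENNReal.ofReal (2 * (C1 * (K₀ + 1)) * (A * l) ^ (-(1 - β))) *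
            ∫⁻ x, ‖g x‖ₑ ^ (2 : ℝ) ∂(cyl m ν) := by
      intro g hg
      refine ((hga β K₀ hβ0 hβ1 hK ν hν (A / 2) (by linarith) g hg).1 l hl (by linarith)).trans ?_
      refine mul_le_mul' (ENNReal.ofReal_le_ofReal ?_) le_rfl
      have h1 : (min (1 / (A / 2 * l)) l) ^ (1 - β) ≤ 2 * (A * l) ^ (-(1 - β)) := by
        have h2 : (min (1 / (A / 2 * l)) l) ≤ 2 * (A * l)⁻¹ := by
          refine (min_le_left _ _).trans (le_of_eq ?_)
          field_simp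
        refine (Real.rpow_le_rpow (by positivity) h2 (by linarith)).trans ?_
        rw [Real.mul_rpow (by norm_num) (by positivity), Real.inv_rpow (by positivity),
          ← Real.rpow_neg (by positivity)]
        refine mul_le_mul_of_nonneg_right ?_ (by positivity)
        calc (2 : ℝ) ^ (1 - β) ≤ 2 ^ (1 : ℝ) :=
              Real.rpow_le_rpow_of_exponent_le (by norm_num) (by linarith)
          _ = 2 := Real.rpow_one 2
      calc C1 * K₀ * (min (1 / (A / 2 * l)) l) ^ (1 - β)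
          ≤ C1 * (K₀ + 1) * (2 * (A * l) ^ (-(1 - β))) := by
            gcongr
            linarith
        _ = _ := by ring
    have hmain := hcore A hA (pm m ψ θ A l) (M + 1) (Sl m A l) hMq (cyl m ν) (Box m l u ρ) R
      ((V * (K₀ + 1)) * (ρ ^ m * (l * ρ) ^ β)) (2 * (C1 * (K₀ + 1)) * (A * l) ^ (-(1 - β)))
      (box_comp l u ρ).measurableSet hR (by positivity) (by positivity) hW hgain u r f hf
      (fun x hx => hs x fun h => hx (hr h)) hfp
    refine hmain.trans (le_of_eq ?_)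
    congr 2
    have e1 : ((M + 1) ^ 2 * (C * A ^ (-th (m + 1) 0 (p / (p - 1)) + ε))) *
        (2 * (C1 * (K₀ + 1)) * (A * l) ^ (-(1 - β))) =
        ((M + 1) ^ 2 * C * (2 * (C1 * (K₀ + 1)))) *
          ((A * l) ^ (-(1 - β)) * A ^ (-th (m + 1) 0 (p / (p - 1)) + ε)) := by ring
    rw [e1, cst (by positivity) (by positivity) (by positivity) (Y := 0) le_rfl (by positivity)
      (by positivity)]
  · intro hθ1 A hA u ρ hρ f hf hs hfp
    have hMq := Mq_hi m hψ hθ hθ1 hM hMb hA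
    have hA0 : 0 < A := by linarith
    have hρ0 : 0 < ρ := by linarith
    obtain ⟨R, hR⟩ := (box_comp 1 u ρ).isBounded.subset_closedBall (0 : E (m + 1))
    obtain ⟨r, hr⟩ := (box_comp 1 u (2 * ρ)).isBounded.subset_closedBall u
    have hW := box_cyl hV hVb hK hν (l := 1) hρ0 (by linarith) u
    rw [one_mul] at hW
    have hgain : ∀ g : E (m + 1) → ℂ, BB g →
        ∫⁻ ξ in Sg m A, ‖Fm g (cyl m ν) ξ‖ₑ ^ (2 : ℝ) ≤
          ENNReal.ofReal (2 * (C1 * (K₀ + 1)) * A ^ (-(1 - β))) *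
            ∫⁻ x, ‖g x‖ₑ ^ (2 : ℝ) ∂(cyl m ν) := by
      intro g hg
      refine (hga β K₀ hβ0 hβ1 hK ν hν (A / 2) (by linarith) g hg).2.trans ?_
      refine mul_le_mul' (ENNReal.ofReal_le_ofReal ?_) le_rfl
      have h1 : (A / 2) ^ (-(1 - β)) ≤ 2 * A ^ (-(1 - β)) := by
        rw [Real.div_rpow hA0.le (by norm_num), Real.rpow_neg (show (0 : ℝ) ≤ 2 by norm_num),
          div_inv_eq_mul, mul_comm]
        refine mul_le_mul_of_nonneg_right ?_ (by positivity)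
        calc (2 : ℝ) ^ (1 - β) ≤ 2 ^ (1 : ℝ) :=
              Real.rpow_le_rpow_of_exponent_le (by norm_num) (by linarith)
          _ = 2 := Real.rpow_one 2
      calc C1 * K₀ * (A / 2) ^ (-(1 - β))
          ≤ C1 * (K₀ + 1) * (2 * A ^ (-(1 - β))) := by
            gcongr
            linarith
        _ = _ := by ring
    have hmain := hcore A hA (hi m ψ θ A) (M + 1) (Sg m A) hMq (cyl m ν) (Box m 1 u ρ) R
      ((V * (K₀ + 1)) * (ρ ^ m * ρ ^ β)) (2 * (C1 * (K₀ + 1)) * A ^ (-(1 - β)))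
      (box_comp 1 u ρ).measurableSet hR (by positivity) (by positivity) hW hgain u r f hf
      (fun x hx => hs x fun h => hx (hr h)) hfp
    refine hmain.trans (le_of_eq ?_)
    congr 2
    have e1 : ((M + 1) ^ 2 * (C * A ^ (-th (m + 1) 0 (p / (p - 1)) + ε))) *
        (2 * (C1 * (K₀ + 1)) * A ^ (-(1 - β))) =
        ((M + 1) ^ 2 * C * (2 * (C1 * (K₀ + 1)))) *
          (A ^ (-(1 - β)) * A ^ (-th (m + 1) 0 (p / (p - 1)) + ε)) := by ring
    rw [e1, cst (by positivity) (by positivity) (by positivity) (Y := 0) le_rfl (by positivity)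
      (by positivity)]

end Pool.Agent.Y93.FD
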